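import Pool.Agent.K3h41.MG.Semi

/-!
The Atiyah conjecture for generic limits of marked groups.
-/

set_option autoImplicit false

open Filter Topology

namespace Pool.Agent.K3h41.MG

/-- The orders of the finite subgroups of `G` are bounded, and `d` is their least common
multiple. -/
def IsLcm (G : Type) [Group G] (d : ℕ) : Prop :=
  (∃ N : ℕ, ∀ H : Subgroup G, Finite H → Nat.card H ≤ N) ∧
    (∀ H : Subgroup G, Finite H → Nat.card H ∣ d) ∧
    ∀ e : ℕ, (∀ H : Subgroup G, Finite H → Nat.card H ∣ e) → d ∣ e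

/-- `d` is the least common multiple of the orders of the finite subgroups of `G`, which are
bounded, and `G` satisfies the Atiyah conjecture with coefficients in `R`. -/
def Atiyah (R : Subring ℂ) (G : Type) [Group G] (d : ℕ) : Prop :=
  IsLcm G d ∧ ∀ (m n : ℕ) (A : Matrix (Fin m) (Fin n) (G →₀ ℂ)),
    (∀ i j g, A i j g ∈ R) → ∃ z : ℤ, (d : ℝ) * kerDim A = z

theorem IsLcm.ne_zero {G : Type} [Group G] {d : ℕ} (h : IsLcm G d) : d ≠ 0 := by
  obtain ⟨⟨N, hN⟩, -, h3⟩ := h
  have h4 : d ∣ N.factorial := h3 _ fun H hH => by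
    have : 0 < Nat.card H := Nat.card_pos
    exact Nat.dvd_factorial this (hN H hH)
  rintro rfl
  exact N.factorial_ne_zero (Nat.eq_zero_of_zero_dvd h4)

variable {κ : Type}

/-- The marked groups with a finite subgroup of order `k`. -/
def Tor (κ : Type) (k : ℕ) : Set (Marked κ) :=
  {N | ∃ H : Subgroup N.grp, Finite H ∧ Nat.card H = k}

theorem isOpen_tor (k : ℕ) : IsOpen (Tor κ k) := by
  rw [isOpen_iff_mem_nhds]
  rintro N ⟨H, hH, hk⟩
  let s : H → FreeGroup κ := fun h => Quotient.out h.1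
  have hs : ∀ h : H, (QuotientGroup.mk (s h) : N.grp) = h.1 := fun h => QuotientGroup.out_eq' h.1
  have c1 : ∀ᶠ M : Marked κ in 𝓝 N, ∀ h h' : H, s h * s h' * (s (h * h'))⁻¹ ∈ M.1 := by
    rw [Filter.eventually_all]
    intro h
    rw [Filter.eventually_all]
    intro h'
    have h1 : s h * s h' * (s (h * h'))⁻¹ ∈ N.1 := by
      rw [← QuotientGroup.eq_one_iff (N := N.1)]
      change (QuotientGroup.mk (s h) : N.grp) * QuotientGroup.mk (s h') *
        (QuotientGroup.mk (s (h * h')))⁻¹ = 1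
      rw [hs, hs, hs]
      simp
    filter_upwards [ev_mem N (s h * s h' * (s (h * h'))⁻¹)] with M hM
    exact hM.mpr h1
  have c2 : ∀ᶠ M : Marked κ in 𝓝 N, ∀ h h' : H, (s h)⁻¹ * s h' ∈ M.1 → h = h' := by
    rw [Filter.eventually_all]
    intro h
    rw [Filter.eventually_all]
    intro h'
    filter_upwards [ev_mem N ((s h)⁻¹ * s h')] with M hM hM2
    have h1 := hM.mp hM2
    rw [← QuotientGroup.eq, hs, hs] at h1
    exact Subtype.ext h1
  filter_upwards [c1, c2] with M h1 h2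
  let φ : H →* M.grp := MonoidHom.mk' (fun h => (QuotientGroup.mk (s h) : M.grp)) (by
    intro h h'
    change (QuotientGroup.mk (s (h * h')) : M.grp) = QuotientGroup.mk (s h * s h')
    rw [eq_comm, ← mul_inv_eq_one]
    exact (QuotientGroup.eq_one_iff (N := M.1) _).mpr (h1 h h'))
  have hφ : Function.Injective φ := by
    intro h h' hh
    apply h2
    rw [← QuotientGroup.eq]
    exact hh
  refine ⟨φ.range, ?_, ?_⟩
  · exact Finite.of_equiv _ (MonoidHom.ofInjective hφ).toEquiv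
  · rw [← hk]
    exact (Nat.card_congr (MonoidHom.ofInjective hφ).toEquiv).symm

/-! ### the dimensions -/

/-- A matrix over the group ring with coefficients in `R`. -/
noncomputable def toC {R : Subring ℂ} {m n : ℕ} (a : Matrix (Fin m) (Fin n) (FreeGroup κ →₀ R)) :
    Matrix (Fin m) (Fin n) (FreeGroup κ →₀ ℂ) :=
  fun i j => (a i j).mapRange (fun r : R => (r : ℂ)) rfl

theorem AN_toC {R : Subring ℂ} {m n : ℕ} (a : Matrix (Fin m) (Fin n) (FreeGroup κ →₀ R))
    (N : Marked κ) (i : Fin m) (j : Fin n) : AN (toC a) N i j =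
      ((a i j).mapDomain (fun w => (QuotientGroup.mk w : N.grp))).mapRange
        (fun r : R => (r : ℂ)) rfl := by
  unfold AN toC
  rw [Finsupp.mapDomain_mapRange]
  intro x y
  rfl

theorem exists_lift {R : Subring ℂ} {m n : ℕ} (N : Marked κ)
    (B : Matrix (Fin m) (Fin n) (N.grp →₀ ℂ)) (hB : ∀ i j g, B i j g ∈ R) :
    ∃ a : Matrix (Fin m) (Fin n) (FreeGroup κ →₀ R), AN (toC a) N = B := by
  classical
  let b : ∀ (_ : Fin m) (_ : Fin n), N.grp →₀ R := fun i j =>
    Finsupp.onFinset (B i j).support (fun g => ⟨B i j g, hB i j g⟩) (by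
      intro g hg
      rw [Finsupp.mem_support_iff]
      intro h0
      exact hg (Subtype.ext h0))
  refine ⟨fun i j => (b i j).mapDomain Quotient.out, ?_⟩
  funext i j
  refine (AN_toC _ N i j).trans ?_
  rw [← Finsupp.mapDomain_comp]
  have h1 : ((fun w => (QuotientGroup.mk w : N.grp)) ∘ Quotient.out) = id := by
    funext x
    exact QuotientGroup.out_eq' x
  rw [h1, Finsupp.mapDomain_id]
  ext g
  rw [Finsupp.mapRange_apply]
  rfl

/-- The marked groups with kernel dimensions in `(1/d) ℤ`. -/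
def DimInt (R : Subring ℂ) (κ : Type) (d : ℕ) : Set (Marked κ) :=
  {N | ∀ (m n : ℕ) (A : Matrix (Fin m) (Fin n) (N.grp →₀ ℂ)),
    (∀ i j g, A i j g ∈ R) → ∃ z : ℤ, (d : ℝ) * kerDim A = z}

theorem usc_mul {g : Marked κ → ℝ} (hg : UpperSemicontinuous g) (d : ℕ) :
    UpperSemicontinuous fun N => (d : ℝ) * g N := by
  intro N t ht
  change (d : ℝ) * g N < t at ht
  change ∀ᶠ M in 𝓝 N, (d : ℝ) * g M < t
  rcases Nat.eq_zero_or_pos d with rfl | hd
  · rw [Nat.cast_zero, zero_mul] at ht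
    filter_upwards with M
    rwa [Nat.cast_zero, zero_mul]
  · have hd' : (0 : ℝ) < d := by exact_mod_cast hd
    have h1 : g N < t / d := by
      rw [lt_div_iff₀ hd', mul_comm]
      exact ht
    filter_upwards [hg N (t / d) h1] with M hM
    rw [lt_div_iff₀ hd', mul_comm] at hM
    exact hM

theorem isGδ_dimInt (R : Subring ℂ) [Countable R] [Countable κ] (d : ℕ) :
    IsGδ (DimInt R κ d) := by
  have : Countable (FreeGroup κ) := Marked.countable_freeGroup κ
  have h : DimInt R κ d = ⋂ a : Σ (m : ℕ) (n : ℕ), Matrix (Fin m) (Fin n) (FreeGroup κ →₀ R),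
      {N | ∃ z : ℤ, (d : ℝ) * kerDim (AN (toC a.2.2) N) = z} := by
    ext N
    rw [Set.mem_iInter]
    constructor
    · rintro h ⟨m, n, a⟩
      apply h m n
      intro i j g
      rw [AN_toC, Finsupp.mapRange_apply]
      exact Subtype.prop _
    · intro h m n B hB
      obtain ⟨a, rfl⟩ := exists_lift N B hB
      exact h ⟨m, n, a⟩
  rw [h]
  have : ∀ m n : ℕ, Countable (Matrix (Fin m) (Fin n) (FreeGroup κ →₀ R)) := fun m n =>
    inferInstanceAs (Countable (Fin m → Fin n → (FreeGroup κ →₀ R)))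
  exact IsGδ.iInter fun a => isGδ_int (usc_mul (usc _) d)

/-- **The Atiyah conjecture passes to generic limits.** -/
theorem residual_atiyah (R : Subring ℂ) [Countable R] [Countable κ] (d : ℕ) (X : Set (Marked κ))
    (hX : ∀ N ∈ X, Atiyah R N.grp d) :
    {N : closure X | Atiyah R N.1.grp d} ∈ residual (closure X) := by
  let V : Marked κ → Set (Marked κ) := fun N => ⋂ k ∈ {k : ℕ | N ∈ Tor κ k}, Tor κ k
  let L : Set (Marked κ) := ⋃ N ∈ X, V N
  have hV : ∀ N ∈ X, IsOpen (V N) := by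
    intro N hN
    apply Set.Finite.isOpen_biInter
    · refine (Set.finite_Iic d).subset ?_
      rintro k ⟨H, hH, rfl⟩
      exact Nat.le_of_dvd (Nat.pos_of_ne_zero (hX N hN).1.ne_zero) ((hX N hN).1.2.1 H hH)
    · intro k _
      exact isOpen_tor k
  have hL : IsOpen L := isOpen_biUnion hV
  have hXL : X ⊆ L ∩ DimInt R κ d := by
    intro N hN
    refine ⟨Set.mem_biUnion hN (Set.mem_iInter₂.mpr fun k hk => hk), (hX N hN).2⟩
  refine Filter.mem_of_superset
    (Marked.residual_of_isGδ (hL.isGδ.inter (isGδ_dimInt R d)) X hXL) ?_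
  rintro ⟨M, hM⟩ ⟨hML, hMD⟩
  change Atiyah R M.grp d
  have hdiv : ∀ H : Subgroup M.grp, Finite H → Nat.card H ∣ d := by
    intro H hH
    obtain ⟨N, hN1, hN2⟩ := mem_closure_iff.mp hM _ (isOpen_tor (Nat.card H)) ⟨H, hH, rfl⟩
    obtain ⟨K, hK, hK2⟩ := hN1
    rw [← hK2]
    exact (hX N hN2).1.2.1 K hK
  obtain ⟨N, hN, hMN⟩ := Set.mem_iUnion₂.mp hML
  have hd := (hX N hN).1.ne_zero
  refine ⟨⟨⟨d, fun H hH => Nat.le_of_dvd (Nat.pos_of_ne_zero hd) (hdiv H hH)⟩, hdiv, ?_⟩, hMD⟩
  intro e he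
  apply (hX N hN).1.2.2
  intro H hH
  obtain ⟨K, hK, hK2⟩ := Set.mem_iInter₂.mp hMN (Nat.card H) ⟨H, hH, rfl⟩
  rw [← hK2]
  exact he K hK

end Pool.Agent.K3h41.MG
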