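import Pool.Agent.K3h41.MG.Marked

/-!
`K₀` and the Whitehead group of generic limits of marked groups.
-/

set_option autoImplicit false

open Filter Topology

namespace Pool.Agent.K3h41.MG

/-- `K̃₀(R) = 0` in terms of idempotent matrices: for every idempotent matrix `e` over `R` there is
an identity matrix `1_k` such that the idempotent `e ⊕ 1_k` is equivalent to an identity matrix
`1_l` (that is, `e ⊕ 1_k = a b` and `1_l = b a` for some matrices `a`, `b`). In other words: all
finitely generated projective `R`-modules are stably free. -/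
def KZero (R : Type) [Ring R] : Prop :=
  ∀ (n : ℕ) (e : Matrix (Fin n) (Fin n) R), e * e = e →
    ∃ (k l : ℕ) (a : Matrix (Fin n ⊕ Fin k) (Fin l) R) (b : Matrix (Fin l) (Fin n ⊕ Fin k) R),
      a * b = Matrix.fromBlocks e 0 0 1 ∧ b * a = 1

/-- The elementary matrices and the diagonal matrices with one entry `± g`, `g ∈ Γ`, and all other
entries `1`, over the group ring of `Γ`. -/
def gens (Γ ι : Type) [Group Γ] [DecidableEq ι] : Set (Matrix ι ι (MonoidAlgebra ℤ Γ)) :=
  {M | (∃ i j, i ≠ j ∧ ∃ r : MonoidAlgebra ℤ Γ, M = 1 + Matrix.single i j r) ∨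
    ∃ (i : ι) (g : Γ) (s : ℤˣ), M = Matrix.diagonal
      (Function.update (fun _ => 1) i (MonoidAlgebra.single g (s : ℤ)))}

/-- The Whitehead group of `Γ` is zero: every invertible matrix over the group ring `ℤ[Γ]` becomes,
after adding an identity matrix, a product of elementary matrices and diagonal matrices with one
entry `± g`, `g ∈ Γ`, and all other entries `1`. -/
def WhZero (Γ : Type) [Group Γ] : Prop :=
  ∀ (n : ℕ) (u v : Matrix (Fin n) (Fin n) (MonoidAlgebra ℤ Γ)), u * v = 1 → v * u = 1 →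
    ∃ k : ℕ, Matrix.fromBlocks u 0 0 (1 : Matrix (Fin k) (Fin k) (MonoidAlgebra ℤ Γ)) ∈
      Submonoid.closure (gens Γ (Fin n ⊕ Fin k))

/-- The group ring of `F × T`. -/
abbrev RF (κ T : Type) [Group T] : Type := MonoidAlgebra ℤ (FreeGroup κ × T)

/-- The group ring of `(F / N) × T`. -/
abbrev RN {κ : Type} (N : Marked κ) (T : Type) [Group T] : Type := MonoidAlgebra ℤ (N.grp × T)

section

variable {κ : Type} (T : Type) [Group T]

/-- The projection. -/
noncomputable def pN (N : Marked κ) : FreeGroup κ × T →* N.grp × T :=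
  (QuotientGroup.mk' N.1).prodMap (MonoidHom.id T)

theorem pN_surjective (N : Marked κ) : Function.Surjective (pN T N) := by
  rintro ⟨x, t⟩
  obtain ⟨w, rfl⟩ := QuotientGroup.mk'_surjective N.1 x
  exact ⟨(w, t), rfl⟩

theorem pN_eq_iff (N : Marked κ) (p q : FreeGroup κ × T) :
    pN T N p = pN T N q ↔ p.1⁻¹ * q.1 ∈ N.1 ∧ p.2 = q.2 := by
  change ((QuotientGroup.mk p.1 : N.grp), p.2) = ((QuotientGroup.mk q.1 : N.grp), q.2) ↔ _
  rw [Prod.mk.injEq, QuotientGroup.eq]

/-- The map of the group rings. -/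
noncomputable def rho (N : Marked κ) : RF κ T →+* RN N T :=
  MonoidAlgebra.mapDomainRingHom ℤ (pN T N)

theorem rho_single (N : Marked κ) (p : FreeGroup κ × T) (r : ℤ) :
    rho T N (MonoidAlgebra.single p r) = MonoidAlgebra.single (pN T N p) r := by
  unfold rho
  rw [MonoidAlgebra.mapDomainRingHom_apply, MonoidAlgebra.mapDomain_single]

theorem rho_coeff (N : Marked κ) (x : RF κ T) :
    (rho T N x).coeff = Finsupp.mapDomain (pN T N) x.coeff := by
  unfold rho
  rw [MonoidAlgebra.mapDomainRingHom_apply]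
  rfl

theorem rho_surjective (N : Marked κ) : Function.Surjective (rho T N) := by
  intro x
  obtain ⟨y, hy⟩ := Finsupp.mapDomain_surjective (M := ℤ) (pN_surjective T N) x.coeff
  refine ⟨MonoidAlgebra.ofCoeff y, ?_⟩
  apply MonoidAlgebra.coeff_injective
  rw [rho_coeff]
  exact hy

theorem ev_mem' (N : Marked κ) (w : FreeGroup κ) : ∀ᶠ M in 𝓝 N, (w ∈ M.1 ↔ w ∈ N.1) := by
  by_cases h : w ∈ N.1
  · filter_upwards [(Marked.isClopen_mem w).isOpen.mem_nhds h] with M hM
    exact ⟨fun _ => h, fun _ => hM⟩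
  · filter_upwards [(Marked.isClopen_mem w).compl.isOpen.mem_nhds h] with M hM
    exact ⟨fun h' => absurd h' hM, fun h' => absurd h' h⟩

/-- Coincidences. -/
theorem coincide {X Y Z M : Type*} [AddCommMonoid M] (p : X → Y) (q : X → Z) (δ : X →₀ M)
    (h0 : Finsupp.mapDomain p δ = 0)
    (h : ∀ x ∈ δ.support, ∀ x' ∈ δ.support, p x = p x' → q x = q x') :
    Finsupp.mapDomain q δ = 0 := by
  classical
  by_cases hne : Nonempty Z
  · let r : Y → Z := fun y => if hy : ∃ x ∈ δ.support, p x = y then q hy.choose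
      else Classical.arbitrary Z
    have h1 : Finsupp.mapDomain q δ = Finsupp.mapDomain (r ∘ p) δ := by
      apply Finsupp.mapDomain_congr
      intro x hx
      have hy : ∃ x' ∈ δ.support, p x' = p x := ⟨x, hx, rfl⟩
      change q x = r (p x)
      simp only [r, dif_pos hy]
      exact h x hx _ hy.choose_spec.1 hy.choose_spec.2.symm
    rw [h1, Finsupp.mapDomain_comp, h0, Finsupp.mapDomain_zero]
  · have : IsEmpty X := ⟨fun x => hne ⟨q x⟩⟩
    have : δ = 0 := Subsingleton.elim _ _
    rw [this, Finsupp.mapDomain_zero]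

theorem isOpen_rho_eq (x y : RF κ T) : IsOpen {N : Marked κ | rho T N x = rho T N y} := by
  rw [isOpen_iff_mem_nhds]
  intro N hN
  have hN' : Finsupp.mapDomain (pN T N) (x - y).coeff = 0 := by
    rw [← rho_coeff, map_sub]
    have : rho T N x = rho T N y := hN
    rw [this, sub_self]
    rfl
  have h : ∀ᶠ M in 𝓝 N, ∀ p ∈ (x - y).coeff.support, ∀ q ∈ (x - y).coeff.support,
      (p.1⁻¹ * q.1 ∈ M.1 ↔ p.1⁻¹ * q.1 ∈ N.1) := by
    rw [Filter.eventually_all_finset]
    intro p _
    rw [Filter.eventually_all_finset]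
    intro q _
    exact ev_mem' N _
  filter_upwards [h] with M hM
  have h1 : Finsupp.mapDomain (pN T M) (x - y).coeff = 0 := by
    refine coincide (pN T N) _ _ hN' fun p hp q hq hpq => ?_
    rw [pN_eq_iff] at hpq ⊢
    exact ⟨(hM p hp q hq).mpr hpq.1, hpq.2⟩
  rw [← sub_eq_zero, ← map_sub]
  apply MonoidAlgebra.coeff_injective
  rw [rho_coeff, h1]
  rfl

/-- The map of matrices. -/
noncomputable def rm (N : Marked κ) {m n : Type} (A : Matrix m n (RF κ T)) : Matrix m n (RN N T) :=
  A.map (rho T N)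

theorem isOpen_rm_eq {m n : Type} [Finite m] [Finite n] (A B : Matrix m n (RF κ T)) :
    IsOpen {N : Marked κ | rm T N A = rm T N B} := by
  have h : {N : Marked κ | rm T N A = rm T N B} =
      ⋂ i, ⋂ j, {N : Marked κ | rho T N (A i j) = rho T N (B i j)} := by
    ext N
    simp only [Set.mem_ofPred_eq, Set.mem_iInter]
    constructor
    · intro h i j
      exact congrFun (congrFun h i) j
    · intro h
      exact Matrix.ext h
  rw [h]
  exact isOpen_iInter_of_finite fun i => isOpen_iInter_of_finite fun j => isOpen_rho_eq T _ _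

theorem rm_surjective (N : Marked κ) {m n : Type} (A : Matrix m n (RN N T)) :
    ∃ B : Matrix m n (RF κ T), rm T N B = A := by
  choose f hf using rho_surjective T N
  exact ⟨fun i j => f (A i j), Matrix.ext fun i j => hf (A i j)⟩

theorem rm_mul (N : Marked κ) {l m n : Type} [Fintype m] (A : Matrix l m (RF κ T))
    (B : Matrix m n (RF κ T)) : rm T N (A * B) = rm T N A * rm T N B :=
  Matrix.map_mul

theorem rm_one (N : Marked κ) {m : Type} [DecidableEq m] :
    rm T N (1 : Matrix m m (RF κ T)) = 1 :=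
  Matrix.map_one _ (map_zero _) (map_one _)

theorem rm_blocks (N : Marked κ) {n k : Type} [DecidableEq k] (A : Matrix n n (RF κ T)) :
    rm T N (Matrix.fromBlocks A 0 0 (1 : Matrix k k (RF κ T))) =
      Matrix.fromBlocks (rm T N A) 0 0 1 := by
  unfold rm
  rw [Matrix.fromBlocks_map, Matrix.map_zero _ (map_zero _), Matrix.map_zero _ (map_zero _),
    Matrix.map_one _ (map_zero _) (map_one _)]

theorem countable_RF [Countable κ] [Countable T] : Countable (RF κ T) := by
  have := Marked.countable_freeGroup κ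
  exact (MonoidAlgebra.coeff_injective (R := ℤ) (M := FreeGroup κ × T)).countable

theorem countable_mat [Countable κ] [Countable T] (m n : Type) [Finite m] [Finite n] :
    Countable (Matrix m n (RF κ T)) := by
  have := countable_RF (κ := κ) T
  exact inferInstanceAs (Countable (m → n → RF κ T))

/-! ### `K₀` -/

theorem isGδ_kZero [Countable κ] [Countable T] : IsGδ {N : Marked κ | KZero (RN N T)} := by
  have h : {N : Marked κ | KZero (RN N T)} =
      ⋂ E : Σ n : ℕ, Matrix (Fin n) (Fin n) (RF κ T),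
        ({N : Marked κ | rm T N (E.2 * E.2) = rm T N E.2}ᶜ ∪
          ⋃ k : ℕ, ⋃ l : ℕ, ⋃ a : Matrix (Fin E.1 ⊕ Fin k) (Fin l) (RF κ T),
            ⋃ b : Matrix (Fin l) (Fin E.1 ⊕ Fin k) (RF κ T),
              ({N : Marked κ | rm T N (a * b) = rm T N (Matrix.fromBlocks E.2 0 0 1)} ∩
                {N : Marked κ | rm T N (b * a) = rm T N 1})) := by
    ext N
    simp only [Set.mem_ofPred_eq, Set.mem_iInter, Set.mem_union, Set.mem_compl_iff,
      Set.mem_iUnion, Set.mem_inter_iff]
    constructor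
    · rintro h ⟨n, E⟩
      by_cases hE : rm T N (E * E) = rm T N E
      · right
        rw [rm_mul] at hE
        obtain ⟨k, l, a, b, h1, h2⟩ := h n (rm T N E) hE
        obtain ⟨a, rfl⟩ := rm_surjective T N a
        obtain ⟨b, rfl⟩ := rm_surjective T N b
        refine ⟨k, l, a, b, ?_, ?_⟩
        · rw [rm_mul, rm_blocks, h1]
        · rw [rm_mul, rm_one, h2]
      · exact Or.inl hE
    · intro h n e he
      obtain ⟨E, rfl⟩ := rm_surjective T N e
      rcases h ⟨n, E⟩ with h | ⟨k, l, a, b, h1, h2⟩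
      · exact absurd ((rm_mul T N E E).trans he) h
      · refine ⟨k, l, rm T N a, rm T N b, ?_, ?_⟩
        · rw [← rm_mul, h1, rm_blocks]
        · rw [← rm_mul, h2, rm_one]
  rw [h]
  have : ∀ n : ℕ, Countable (Matrix (Fin n) (Fin n) (RF κ T)) := fun n => countable_mat T _ _
  refine IsGδ.iInter fun E => IsGδ.union ?_ ?_
  · exact Marked.isGδ_of_isClosed (isOpen_rm_eq T _ _).isClosed_compl
  · apply IsOpen.isGδ
    exact isOpen_iUnion fun k => isOpen_iUnion fun l => isOpen_iUnion fun a =>
      isOpen_iUnion fun b => (isOpen_rm_eq T _ _).inter (isOpen_rm_eq T _ _)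

/-! ### the Whitehead group -/

theorem rm_gens (N : Marked κ) {ι : Type} [Fintype ι] [DecidableEq ι] :
    (rm T N) '' (gens (FreeGroup κ × T) ι) = gens (N.grp × T) ι := by
  ext M
  constructor
  · rintro ⟨M', h | h, rfl⟩
    · obtain ⟨i, j, hij, r, rfl⟩ := h
      left
      refine ⟨i, j, hij, rho T N r, ?_⟩
      unfold rm
      rw [Matrix.map_add _ (map_add _), Matrix.map_one _ (map_zero _) (map_one _)]
      congr 1
      refine Matrix.ext fun a b => ?_
      rw [Matrix.map_apply, Matrix.single_apply, Matrix.single_apply]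
      split_ifs
      · rfl
      · exact map_zero (rho T N)
    · obtain ⟨i, g, s, rfl⟩ := h
      right
      refine ⟨i, pN T N g, s, ?_⟩
      unfold rm
      rw [Matrix.diagonal_map (map_zero _)]
      congr 1
      funext a
      by_cases ha : a = i
      · subst ha
        simp only [Function.update_self]
        exact rho_single T N g _
      · simp only [Function.update_of_ne ha]
        exact map_one (rho T N)
  · rintro (h | h)
    · obtain ⟨i, j, hij, r, rfl⟩ := h
      obtain ⟨r, rfl⟩ := rho_surjective T N r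
      refine ⟨1 + Matrix.single i j r, Or.inl ⟨i, j, hij, r, rfl⟩, ?_⟩
      unfold rm
      rw [Matrix.map_add _ (map_add _), Matrix.map_one _ (map_zero _) (map_one _)]
      congr 1
      refine Matrix.ext fun a b => ?_
      rw [Matrix.map_apply, Matrix.single_apply, Matrix.single_apply]
      split_ifs
      · rfl
      · exact map_zero (rho T N)
    · obtain ⟨i, g, s, rfl⟩ := h
      obtain ⟨g, rfl⟩ := pN_surjective T N g
      refine ⟨_, Or.inr ⟨i, g, s, rfl⟩, ?_⟩
      unfold rm
      rw [Matrix.diagonal_map (map_zero _)]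
      congr 1
      funext a
      by_cases ha : a = i
      · subst ha
        simp only [Function.update_self]
        exact rho_single T N g _
      · simp only [Function.update_of_ne ha]
        exact map_one (rho T N)

theorem mem_closure_gens (N : Marked κ) {ι : Type} [Fintype ι] [DecidableEq ι]
    (M : Matrix ι ι (RF κ T)) :
    rm T N M ∈ Submonoid.closure (gens (N.grp × T) ι) ↔
      ∃ M' ∈ Submonoid.closure (gens (FreeGroup κ × T) ι), rm T N M' = rm T N M := by
  let f : Matrix ι ι (RF κ T) →* Matrix ι ι (RN N T) :=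
    { toFun := rm T N
      map_one' := rm_one T N
      map_mul' := fun A B => rm_mul T N A B }
  have h : (Submonoid.closure (gens (FreeGroup κ × T) ι)).map f =
      Submonoid.closure (gens (N.grp × T) ι) := by
    rw [MonoidHom.map_mclosure]
    congr 1
    exact rm_gens T N
  rw [← h]
  exact Submonoid.mem_map

theorem isOpen_mem_closure {n : ℕ} (U : Matrix (Fin n) (Fin n) (RF κ T)) :
    IsOpen {N : Marked κ | ∃ k : ℕ, Matrix.fromBlocks (rm T N U) 0 0
      (1 : Matrix (Fin k) (Fin k) (RN N T)) ∈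
        Submonoid.closure (gens (N.grp × T) (Fin n ⊕ Fin k))} := by
  have h : {N : Marked κ | ∃ k : ℕ, Matrix.fromBlocks (rm T N U) 0 0
      (1 : Matrix (Fin k) (Fin k) (RN N T)) ∈
        Submonoid.closure (gens (N.grp × T) (Fin n ⊕ Fin k))} =
      ⋃ k : ℕ, ⋃ M ∈ Submonoid.closure (gens (FreeGroup κ × T) (Fin n ⊕ Fin k)),
        {N : Marked κ | rm T N M = rm T N (Matrix.fromBlocks U 0 0 1)} := by
    ext N
    simp only [Set.mem_ofPred_eq, Set.mem_iUnion]
    refine exists_congr fun k => ?_
    rw [← rm_blocks, mem_closure_gens]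
    constructor
    · rintro ⟨M, h1, h2⟩
      exact ⟨M, h1, h2⟩
    · rintro ⟨M, h1, h2⟩
      exact ⟨M, h1, h2⟩
  rw [h]
  exact isOpen_iUnion fun k => isOpen_biUnion fun M _ => isOpen_rm_eq T _ _

theorem isGδ_whZero [Countable κ] [Countable T] : IsGδ {N : Marked κ | WhZero (N.grp × T)} := by
  have h : {N : Marked κ | WhZero (N.grp × T)} =
      ⋂ E : Σ n : ℕ, Matrix (Fin n) (Fin n) (RF κ T) × Matrix (Fin n) (Fin n) (RF κ T),
        (({N : Marked κ | rm T N (E.2.1 * E.2.2) = rm T N 1} ∩
          {N : Marked κ | rm T N (E.2.2 * E.2.1) = rm T N 1})ᶜ ∪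
          {N : Marked κ | ∃ k : ℕ, Matrix.fromBlocks (rm T N E.2.1) 0 0
            (1 : Matrix (Fin k) (Fin k) (RN N T)) ∈
              Submonoid.closure (gens (N.grp × T) (Fin E.1 ⊕ Fin k))}) := by
    ext N
    simp only [Set.mem_ofPred_eq, Set.mem_iInter, Set.mem_union, Set.mem_compl_iff,
      Set.mem_inter_iff]
    constructor
    · rintro h ⟨n, U, V⟩
      by_cases hE : rm T N (U * V) = rm T N 1 ∧ rm T N (V * U) = rm T N 1
      · right
        rw [rm_mul, rm_mul, rm_one] at hE
        exact h n (rm T N U) (rm T N V) hE.1 hE.2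
      · exact Or.inl hE
    · intro h n u v huv hvu
      obtain ⟨U, rfl⟩ := rm_surjective T N u
      obtain ⟨V, rfl⟩ := rm_surjective T N v
      rcases h ⟨n, U, V⟩ with h | h
      · refine absurd ⟨?_, ?_⟩ h
        · rw [rm_mul, rm_one, huv]
        · rw [rm_mul, rm_one, hvu]
      · exact h
  rw [h]
  have : ∀ n : ℕ, Countable (Matrix (Fin n) (Fin n) (RF κ T)) := fun n => countable_mat T _ _
  refine IsGδ.iInter fun E => IsGδ.union ?_ ?_
  · exact Marked.isGδ_of_isClosed
      ((isOpen_rm_eq T _ _).inter (isOpen_rm_eq T _ _)).isClosed_compl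
  · exact (isOpen_mem_closure T E.2.1).isGδ

end

/-! ### torsion -/

/-- `Γ` is torsion-free. -/
def TorsionFree (Γ : Type) [Group Γ] : Prop := ∀ g : Γ, ∀ k : ℕ, 0 < k → g ^ k = 1 → g = 1

theorem torsionFree_closure {κ : Type} {X : Set (Marked κ)} (hX : ∀ N ∈ X, TorsionFree N.grp)
    {M : Marked κ} (hM : M ∈ closure X) : TorsionFree M.grp := by
  intro g k hk hg
  obtain ⟨w, rfl⟩ := QuotientGroup.mk_surjective g
  have h1 : w ^ k ∈ M.1 := by
    rw [← QuotientGroup.eq_one_iff]
    exact hg
  by_contra hw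
  have h2 : w ∉ M.1 := fun h => hw ((QuotientGroup.eq_one_iff (N := M.1) w).mpr h)
  obtain ⟨N, ⟨hN1, hN2⟩, hN⟩ := mem_closure_iff.mp hM
    ({N : Marked κ | w ^ k ∈ N.1} ∩ {N : Marked κ | w ∈ N.1}ᶜ)
    ((Marked.isClopen_mem _).isOpen.inter (Marked.isClopen_mem _).compl.isOpen) ⟨h1, h2⟩
  apply hN2
  have h3 := hX N hN (QuotientGroup.mk w) k hk ((QuotientGroup.eq_one_iff (N := N.1) _).mpr hN1)
  exact (QuotientGroup.eq_one_iff (N := N.1) w).mp h3

/-- `Γ` is torsion-free and satisfies the Farrell-Jones conjecture in all degrees `≤ 1` together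
with its products with free abelian groups: for all `n`, all finitely generated projective modules
over `ℤ[Γ × ℤⁿ]` are stably free and the Whitehead group of `Γ × ℤⁿ` is zero. -/
def LowFJ (Γ : Type) [Group Γ] : Prop :=
  TorsionFree Γ ∧ ∀ n : ℕ, KZero (MonoidAlgebra ℤ (Γ × Multiplicative (Fin n → ℤ))) ∧
    WhZero (Γ × Multiplicative (Fin n → ℤ))

theorem residual_low {κ : Type} [Countable κ] (X : Set (Marked κ))
    (hX : ∀ N ∈ X, LowFJ N.grp) :
    {N : closure X | LowFJ N.1.grp} ∈ residual (closure X) := by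
  have : ∀ n : ℕ, Countable (Multiplicative (Fin n → ℤ)) := fun n =>
    inferInstanceAs (Countable (Fin n → ℤ))
  have h1 : IsGδ (⋂ n : ℕ, {N : Marked κ | KZero (RN N (Multiplicative (Fin n → ℤ)))} ∩
      {N : Marked κ | WhZero (N.grp × Multiplicative (Fin n → ℤ))}) :=
    IsGδ.iInter fun n => (isGδ_kZero _).inter (isGδ_whZero _)
  refine Filter.mem_of_superset (Marked.residual_of_isGδ h1 X ?_) ?_
  · intro N hN
    rw [Set.mem_iInter]
    intro n
    exact (hX N hN).2 n
  · rintro ⟨M, hM⟩ hMn
    have hMn' : M ∈ ⋂ n : ℕ, {N : Marked κ | KZero (RN N (Multiplicative (Fin n → ℤ)))} ∩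
      {N : Marked κ | WhZero (N.grp × Multiplicative (Fin n → ℤ))} := hMn
    rw [Set.mem_iInter] at hMn'
    exact ⟨torsionFree_closure (fun N hN => (hX N hN).1) hM, fun n => hMn' n⟩

end Pool.Agent.K3h41.MG
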