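import Mathlib

/-!
The space of marked groups.
-/

namespace Pool.Agent.K3h41.MG

/-- The marked groups with generators indexed by `κ`: the normal subgroups `N` of the free group on
`κ`, which stand for the groups `FreeGroup κ ⧸ N` with the images of the free generators. -/
def Marked (κ : Type) : Type := {N : Subgroup (FreeGroup κ) // N.Normal}

namespace Marked

variable {κ : Type}

instance (N : Marked κ) : N.1.Normal := N.2

/-- The group of a marked group. -/
abbrev grp (N : Marked κ) : Type := FreeGroup κ ⧸ N.1

open Classical in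
/-- The indicator function of the normal subgroup. -/
noncomputable def ind (N : Marked κ) : FreeGroup κ → Bool := fun w => decide (w ∈ N.1)

/-- The topology of pointwise convergence of the indicator functions. -/
noncomputable instance : TopologicalSpace (Marked κ) := TopologicalSpace.induced ind inferInstance

theorem continuous_ind : Continuous (ind : Marked κ → FreeGroup κ → Bool) :=
  continuous_induced_dom

theorem ind_true (N : Marked κ) (w : FreeGroup κ) : N.ind w = true ↔ w ∈ N.1 := by
  classical
  unfold ind
  rw [decide_eq_true_iff]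

theorem isClopen_mem (w : FreeGroup κ) : IsClopen {N : Marked κ | w ∈ N.1} := by
  have h : {N : Marked κ | w ∈ N.1} = (fun N : Marked κ => N.ind w) ⁻¹' {true} := by
    ext N
    exact (ind_true N w).symm
  rw [h]
  exact (isClopen_discrete _).preimage ((continuous_apply w).comp continuous_ind)

theorem isClopen_sub (R : Finset (FreeGroup κ)) : IsClopen {N : Marked κ | ∀ r ∈ R, r ∈ N.1} := by
  have h : {N : Marked κ | ∀ r ∈ R, r ∈ N.1} = ⋂ r ∈ R, {N : Marked κ | r ∈ N.1} := by
    ext N
    simp
  rw [h]
  exact isClopen_biInter_finset fun r _ => isClopen_mem r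

theorem isClopen_nsub (R : Finset (FreeGroup κ)) :
    IsClopen {N : Marked κ | ∀ r ∈ R, r ∉ N.1} := by
  have h : {N : Marked κ | ∀ r ∈ R, r ∉ N.1} = ⋂ r ∈ R, {N : Marked κ | r ∈ N.1}ᶜ := by
    ext N
    simp
  rw [h]
  exact isClopen_biInter_finset fun r _ => (isClopen_mem r).compl

theorem ind_injective : Function.Injective (ind : Marked κ → FreeGroup κ → Bool) := by
  intro N M h
  apply Subtype.ext
  ext w
  rw [← ind_true, ← ind_true, h]

theorem isClosed_range : IsClosed (Set.range (ind : Marked κ → FreeGroup κ → Bool)) := by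
  have h : Set.range (ind : Marked κ → FreeGroup κ → Bool) =
      {χ | χ 1 = true} ∩ (⋂ a, ⋂ b, {χ | χ a = true → χ b = true → χ (a * b) = true}) ∩
        (⋂ a, {χ | χ a = true → χ a⁻¹ = true}) ∩
        (⋂ a, ⋂ b, {χ | χ a = true → χ (b * a * b⁻¹) = true}) := by
    ext χ
    constructor
    · rintro ⟨N, rfl⟩
      simp only [Set.mem_inter_iff, Set.mem_ofPred_eq, Set.mem_iInter, ind_true]
      exact ⟨⟨⟨N.1.one_mem, fun a b => N.1.mul_mem⟩, fun a => N.1.inv_mem⟩,
        fun a b h => N.2.conj_mem a h b⟩
    · simp only [Set.mem_inter_iff, Set.mem_ofPred_eq, Set.mem_iInter]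
      rintro ⟨⟨⟨h1, h2⟩, h3⟩, h4⟩
      let S : Subgroup (FreeGroup κ) :=
        { carrier := {w | χ w = true}
          mul_mem' := fun {a b} => h2 a b
          one_mem' := h1
          inv_mem' := fun {a} => h3 a }
      let N : Marked κ := ⟨S, ⟨fun a h b => h4 a b h⟩⟩
      refine ⟨N, ?_⟩
      funext w
      exact Bool.eq_iff_iff.mpr (ind_true N w)
  rw [h]
  have c1 : ∀ w : FreeGroup κ, IsClopen {χ : FreeGroup κ → Bool | χ w = true} := fun w =>
    (isClopen_discrete {true}).preimage (continuous_apply w)
  have c2 : ∀ A B : Set (FreeGroup κ → Bool), IsClopen A → IsClopen B →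
      IsClopen {χ | χ ∈ A → χ ∈ B} := by
    intro A B hA hB
    have : {χ | χ ∈ A → χ ∈ B} = Aᶜ ∪ B := by
      ext χ
      simp [imp_iff_not_or]
    rw [this]
    exact hA.compl.union hB
  refine (((c1 1).isClosed.inter ?_).inter ?_).inter ?_
  · exact isClosed_iInter fun a => isClosed_iInter fun b =>
      (c2 _ _ (c1 a) (c2 _ _ (c1 b) (c1 (a * b)))).isClosed
  · exact isClosed_iInter fun a => (c2 _ _ (c1 a) (c1 a⁻¹)).isClosed
  · exact isClosed_iInter fun a => isClosed_iInter fun b =>
      (c2 _ _ (c1 a) (c1 (b * a * b⁻¹))).isClosed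

theorem isClosedEmbedding_ind :
    Topology.IsClosedEmbedding (ind : Marked κ → FreeGroup κ → Bool) :=
  ⟨⟨⟨rfl⟩, ind_injective⟩, isClosed_range⟩

instance : CompactSpace (Marked κ) := isClosedEmbedding_ind.compactSpace

instance : T2Space (Marked κ) := isClosedEmbedding_ind.isEmbedding.t2Space

theorem countable_freeGroup (κ : Type) [Countable κ] : Countable (FreeGroup κ) := by
  have : Countable (List (κ × Bool)) := inferInstance
  have h : Function.Surjective (FreeGroup.mk : List (κ × Bool) → FreeGroup κ) :=
    Quot.mk_surjective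
  exact h.countable

theorem metrizable [Countable κ] : TopologicalSpace.MetrizableSpace (Marked κ) := by
  have := countable_freeGroup κ
  have : SecondCountableTopology (Marked κ) :=
    isClosedEmbedding_ind.isEmbedding.secondCountableTopology
  exact TopologicalSpace.metrizableSpace_of_t3_secondCountable _

theorem isGδ_of_isClosed [Countable κ] {A : Set (Marked κ)} (h : IsClosed A) : IsGδ A := by
  have := metrizable (κ := κ)
  let _ := TopologicalSpace.metrizableSpaceMetric (Marked κ)
  exact h.isGδ

theorem baire (X : Set (Marked κ)) : BaireSpace (closure X) := by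
  have : CompactSpace (closure X) := isCompact_iff_compactSpace.mp isClosed_closure.isCompact
  infer_instance

/-- A `G_δ` set contains comeagrely many points of the closure of each of its subsets. -/
theorem residual_of_isGδ {P : Set (Marked κ)} (hP : IsGδ P) (X : Set (Marked κ)) (hX : X ⊆ P) :
    {N : closure X | N.1 ∈ P} ∈ residual (closure X) := by
  apply residual_of_dense_Gδ
  · exact hP.preimage continuous_subtype_val
  · apply Dense.mono (s₁ := {N : closure X | N.1 ∈ X})
    · intro N hN
      exact hX hN
    · rw [Subtype.dense_iff]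
      intro N hN
      have : Subtype.val '' {N : closure X | N.1 ∈ X} = X := by
        ext M
        constructor
        · rintro ⟨M', h, rfl⟩
          exact h
        · intro h
          exact ⟨⟨M, subset_closure h⟩, h, rfl⟩
      rwa [this]

end Marked

/-- The points at which an upper semicontinuous function is an integer form a `G_δ` set. -/
theorem isGδ_int {κ : Type} [Countable κ] {g : Marked κ → ℝ} (hg : UpperSemicontinuous g) :
    IsGδ {N | ∃ z : ℤ, g N = z} := by
  have h : {N | ∃ z : ℤ, g N = z} =
      ⋂ k : ℤ, ((⋂ j : ℕ, {N | g N < k + 1 / ((j : ℝ) + 1)}) ∪ {N | g N < k + 1}ᶜ) := by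
    ext N
    simp only [Set.mem_ofPred_eq, Set.mem_iInter, Set.mem_union, Set.mem_compl_iff, not_lt]
    constructor
    · rintro ⟨z, hz⟩ k
      rw [hz]
      rcases lt_or_ge k z with h | h
      · right
        exact_mod_cast h
      · left
        intro j
        have h1 : (z : ℝ) ≤ k := by exact_mod_cast h
        have h2 : (0 : ℝ) < 1 / ((j : ℝ) + 1) := by positivity
        linarith
    · intro h
      refine ⟨⌊g N⌋, ?_⟩
      rcases h ⌊g N⌋ with h | h
      · apply le_antisymm _ (Int.floor_le _)
        apply le_of_forall_pos_lt_add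
        intro ε hε
        obtain ⟨j, hj⟩ := exists_nat_one_div_lt hε
        exact (h j).trans (by linarith)
      · exact absurd (Int.lt_floor_add_one (g N)) (not_lt.mpr h)
  rw [h]
  refine IsGδ.iInter fun k => ?_
  refine IsGδ.union ?_ ?_
  · exact IsGδ.iInter_of_isOpen fun j => hg.isOpen_preimage _
  · exact Marked.isGδ_of_isClosed (hg.isOpen_preimage _).isClosed_compl

end Pool.Agent.K3h41.MG
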