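import Pool.Agent.K3h41.MG.Marked

/-!
The kernel dimension of a matrix is an upper semicontinuous function of the marked group.
-/

set_option autoImplicit false

open scoped InnerProductSpace ENNReal ComplexConjugate
open Filter Topology

namespace Pool.Agent.K3h41.MG

/-- `ℓ²(X)`. -/
abbrev L2 (X : Type) : Type := lp (fun _ : X => ℂ) 2

open Classical in
/-- Basis vectors. -/
noncomputable def de {X : Type} (x : X) : L2 X := lp.single 2 x (1 : ℂ)

theorem inner_de {X : Type} (x : X) (f : L2 X) : ⟪de x, f⟫_ℂ = f x := by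
  classical
  unfold de
  rw [lp.inner_single_left]
  simp

open Classical in
theorem de_apply {X : Type} (x y : X) : de x y = if y = x then 1 else 0 := by
  unfold de
  rw [lp.single_apply]
  by_cases h : y = x
  · subst h
    simp
  · simp [h]

open Classical in
theorem inner_de_de {X : Type} (x y : X) : ⟪de x, de y⟫_ℂ = if x = y then 1 else 0 := by
  rw [inner_de, de_apply]

theorem norm_de {X : Type} (x : X) : ‖(de x : L2 X)‖ = 1 := by
  classical
  unfold de
  rw [lp.norm_single (by norm_num)]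
  simp

section Kernel

variable {G : Type} [Group G] {m n : ℕ}

/-- The kernel of right multiplication by the matrix `A` on `ℓ²(G)^m`. -/
def kernel (A : Matrix (Fin m) (Fin n) (G →₀ ℂ)) : Set (lp (fun _ : Fin m × G => ℂ) 2) :=
  {x | ∀ (j : Fin n) (g : G),
    ∑ i : Fin m, (A i j).sum (fun h c => x (i, g * h⁻¹) * c) = 0}

open Classical in
/-- The von Neumann dimension of this kernel: the sum over `i` of one minus the squared distance
from the basis vector at `(i, 1)` to the kernel, that is, the trace of the projection onto the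
kernel. -/
noncomputable def kerDim (A : Matrix (Fin m) (Fin n) (G →₀ ℂ)) : ℝ :=
  ∑ i : Fin m, (1 - (Metric.infDist
    (lp.single 2 (i, (1 : G)) (1 : ℂ) : lp (fun _ : Fin m × G => ℂ) 2) (kernel A)) ^ 2)

/-- The vectors to which the kernel is orthogonal. -/
noncomputable def wv (A : Matrix (Fin m) (Fin n) (G →₀ ℂ)) (j : Fin n) (g : G) :
    L2 (Fin m × G) :=
  ∑ i, (A i j).sum fun h c => (conj c) • de (i, g * h⁻¹)

theorem inner_wv (A : Matrix (Fin m) (Fin n) (G →₀ ℂ)) (j : Fin n) (g : G)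
    (x : L2 (Fin m × G)) :
    ⟪wv A j g, x⟫_ℂ = ∑ i : Fin m, (A i j).sum (fun h c => x (i, g * h⁻¹) * c) := by
  unfold wv
  rw [sum_inner]
  refine Finset.sum_congr rfl fun i _ => ?_
  rw [Finsupp.sum, sum_inner, Finsupp.sum]
  refine Finset.sum_congr rfl fun h _ => ?_
  rw [inner_smul_left, inner_de, Complex.conj_conj, mul_comm]

/-- The span of these vectors. -/
noncomputable def SS (A : Matrix (Fin m) (Fin n) (G →₀ ℂ)) : Submodule ℂ (L2 (Fin m × G)) :=
  Submodule.span ℂ (Set.range fun p : Fin n × G => wv A p.1 p.2)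

theorem kernel_eq (A : Matrix (Fin m) (Fin n) (G →₀ ℂ)) :
    kernel A = ((SS A)ᗮ : Submodule ℂ (L2 (Fin m × G))) := by
  ext x
  constructor
  · intro h
    rw [SetLike.mem_coe, Submodule.mem_orthogonal]
    intro u hu
    unfold SS at hu
    induction hu using Submodule.span_induction with
    | mem u hu =>
      obtain ⟨p, rfl⟩ := hu
      rw [inner_wv]
      exact h p.1 p.2
    | zero => rw [inner_zero_left]
    | add u v _ _ hu hv => rw [inner_add_left, hu, hv, add_zero]
    | smul a u _ hu => rw [inner_smul_left, hu, mul_zero]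
  · intro h j g
    rw [SetLike.mem_coe, Submodule.mem_orthogonal] at h
    rw [← inner_wv]
    exact h _ (Submodule.subset_span ⟨(j, g), rfl⟩)

theorem infDist_sub {E : Type*} [NormedAddCommGroup E] [InnerProductSpace ℂ E]
    (K : Submodule ℂ E) [K.HasOrthogonalProjection] (d : E) :
    Metric.infDist d (K : Set E) = ‖d - K.starProjection d‖ := by
  rw [Submodule.starProjection_minimal, Metric.infDist_eq_iInf]
  simp only [dist_eq_norm]
  rfl

theorem dist_orth {E : Type*} [NormedAddCommGroup E] [InnerProductSpace ℂ E] [CompleteSpace E]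
    (S : Submodule ℂ E) (d : E) (hd : ‖d‖ = 1) :
    1 - Metric.infDist d (Sᗮ : Submodule ℂ E) ^ 2 = Metric.infDist d (S : Set E) ^ 2 := by
  have hc : CompleteSpace S.topologicalClosure :=
    S.isClosed_topologicalClosure.completeSpace_coe
  have h1 : Metric.infDist d (S : Set E) = Metric.infDist d (S.topologicalClosure : Set E) := by
    rw [Submodule.topologicalClosure_coe, Metric.infDist_closure]
  have h2 : (S.topologicalClosure)ᗮ = Sᗮ := Submodule.orthogonal_closure S
  rw [h1, ← h2, infDist_sub, infDist_sub]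
  have h3 := Submodule.norm_sq_eq_add_norm_sq_starProjection d S.topologicalClosure
  have h4 : (S.topologicalClosure)ᗮ.starProjection d = d - S.topologicalClosure.starProjection d :=
    by rw [← Submodule.starProjection_orthogonal_val]
  rw [h4] at h3 ⊢
  rw [sub_sub_cancel, hd] at *
  linarith

open Classical in
theorem kerDim_eq (A : Matrix (Fin m) (Fin n) (G →₀ ℂ)) :
    kerDim A = ∑ i : Fin m, Metric.infDist (de (i, (1 : G))) (SS A : Set (L2 (Fin m × G))) ^ 2 := by
  unfold kerDim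
  refine Finset.sum_congr rfl fun i _ => ?_
  have e : (lp.single 2 (i, (1 : G)) (1 : ℂ) : L2 (Fin m × G)) = de (i, (1 : G)) := by
    ext y
    rw [de_apply, lp.single_apply]
    by_cases h : y = (i, 1)
    · subst h
      simp
    · simp [h]
  rw [kernel_eq, e]
  exact dist_orth (SS A) (de (i, (1 : G))) (norm_de _)

end Kernel

section Push

variable {X Y Y' : Type}

/-- The push forward of a finitely supported function. -/
noncomputable def pv (f : X → Y) : (X →₀ ℂ) →ₗ[ℂ] L2 Y :=
  Finsupp.linearCombination ℂ fun x => de (f x)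

open Classical in
theorem inner_pv (f : X → Y) (z : X →₀ ℂ) : ⟪pv f z, pv f z⟫_ℂ =
    ∑ p ∈ z.support, ∑ q ∈ z.support, conj (z p) * (z q * (if f p = f q then 1 else 0)) := by
  unfold pv
  rw [Finsupp.linearCombination_apply, Finsupp.sum, sum_inner]
  refine Finset.sum_congr rfl fun p _ => ?_
  rw [inner_sum]
  refine Finset.sum_congr rfl fun q _ => ?_
  rw [inner_smul_left, inner_smul_right, inner_de_de]

theorem norm_pv_eq (f : X → Y) (f' : X → Y') (z : X →₀ ℂ)
    (h : ∀ p ∈ z.support, ∀ q ∈ z.support, (f p = f q ↔ f' p = f' q)) :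
    ‖pv f z‖ = ‖pv f' z‖ := by
  classical
  have h1 : ⟪pv f z, pv f z⟫_ℂ = ⟪pv f' z, pv f' z⟫_ℂ := by
    rw [inner_pv, inner_pv]
    refine Finset.sum_congr rfl fun p hp => Finset.sum_congr rfl fun q hq => ?_
    by_cases hc : f p = f q
    · rw [if_pos hc, if_pos ((h p hp q hq).mp hc)]
    · rw [if_neg hc, if_neg (fun h' => hc ((h p hp q hq).mpr h'))]
  rw [inner_self_eq_norm_sq_to_K, inner_self_eq_norm_sq_to_K] at h1
  have h2 : ‖pv f z‖ ^ 2 = ‖pv f' z‖ ^ 2 := by exact_mod_cast h1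
  exact (sq_eq_sq₀ (norm_nonneg _) (norm_nonneg _)).mp h2

end Push

section Semi

variable {κ : Type} {m n : ℕ}

/-- The map of the basis. -/
def fN (m : ℕ) (N : Marked κ) (p : Fin m × FreeGroup κ) : Fin m × N.grp :=
  (p.1, QuotientGroup.mk p.2)

/-- The matrix over the group ring of the quotient. -/
noncomputable def AN (A : Matrix (Fin m) (Fin n) (FreeGroup κ →₀ ℂ)) (N : Marked κ) :
    Matrix (Fin m) (Fin n) (N.grp →₀ ℂ) :=
  fun i j => (A i j).mapDomain (fun w => (QuotientGroup.mk w : N.grp))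

/-- The finitely supported functions behind `wv`. -/
noncomputable def zv (A : Matrix (Fin m) (Fin n) (FreeGroup κ →₀ ℂ)) (j : Fin n)
    (g : FreeGroup κ) : (Fin m × FreeGroup κ) →₀ ℂ :=
  ∑ i, (A i j).sum fun h c => Finsupp.single (i, g * h⁻¹) (conj c)

theorem pv_zv (A : Matrix (Fin m) (Fin n) (FreeGroup κ →₀ ℂ)) (N : Marked κ) (j : Fin n)
    (g : FreeGroup κ) :
    pv (fN m N) (zv A j g) = wv (AN A N) j (QuotientGroup.mk g : N.grp) := by
  unfold zv wv
  rw [map_sum]
  refine Finset.sum_congr rfl fun i _ => ?_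
  unfold AN
  rw [Finsupp.sum_mapDomain_index]
  · rw [Finsupp.sum, map_sum, Finsupp.sum]
    refine Finset.sum_congr rfl fun h _ => ?_
    unfold pv
    rw [Finsupp.linearCombination_single]
    rfl
  · intro b
    rw [map_zero, zero_smul]
  · intro b c c'
    rw [map_add, add_smul]

/-- The span of the finitely supported functions. -/
noncomputable def ZZ (A : Matrix (Fin m) (Fin n) (FreeGroup κ →₀ ℂ)) :
    Submodule ℂ ((Fin m × FreeGroup κ) →₀ ℂ) :=
  Submodule.span ℂ (Set.range fun p : Fin n × FreeGroup κ => zv A p.1 p.2)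

theorem SS_eq (A : Matrix (Fin m) (Fin n) (FreeGroup κ →₀ ℂ)) (N : Marked κ) :
    SS (AN A N) = (ZZ A).map (pv (fN m N)) := by
  unfold SS ZZ
  rw [Submodule.map_span]
  congr 1
  ext x
  constructor
  · rintro ⟨⟨j, g⟩, rfl⟩
    obtain ⟨w, rfl⟩ := QuotientGroup.mk_surjective g
    exact ⟨_, ⟨(j, w), rfl⟩, pv_zv A N j w⟩
  · rintro ⟨_, ⟨⟨j, w⟩, rfl⟩, rfl⟩
    exact ⟨(j, QuotientGroup.mk w), (pv_zv A N j w).symm⟩

theorem ev_mem (N : Marked κ) (w : FreeGroup κ) : ∀ᶠ M in 𝓝 N, (w ∈ M.1 ↔ w ∈ N.1) := by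
  by_cases h : w ∈ N.1
  · filter_upwards [(Marked.isClopen_mem w).isOpen.mem_nhds h] with M hM
    exact ⟨fun _ => h, fun _ => hM⟩
  · filter_upwards [(Marked.isClopen_mem w).compl.isOpen.mem_nhds h] with M hM
    exact ⟨fun h' => absurd h' hM, fun h' => absurd h' h⟩

theorem fN_eq_iff (N : Marked κ) (p q : Fin m × FreeGroup κ) :
    fN m N p = fN m N q ↔ p.1 = q.1 ∧ p.2⁻¹ * q.2 ∈ N.1 := by
  unfold fN
  rw [Prod.mk.injEq, QuotientGroup.eq]

/-- The norms of the push forwards are locally constant. -/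
theorem ev_norm (N : Marked κ) (z : (Fin m × FreeGroup κ) →₀ ℂ) :
    ∀ᶠ M in 𝓝 N, ‖pv (fN m M) z‖ = ‖pv (fN m N) z‖ := by
  have h : ∀ᶠ M in 𝓝 N, ∀ p ∈ z.support, ∀ q ∈ z.support,
      (p.2⁻¹ * q.2 ∈ M.1 ↔ p.2⁻¹ * q.2 ∈ N.1) := by
    rw [Filter.eventually_all_finset]
    intro p _
    rw [Filter.eventually_all_finset]
    intro q _
    exact ev_mem N _
  filter_upwards [h] with M hM
  apply norm_pv_eq
  intro p hp q hq
  rw [fN_eq_iff, fN_eq_iff, hM p hp q hq]

theorem pv_single (N : Marked κ) (i : Fin m) :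
    pv (fN m N) (Finsupp.single (i, (1 : FreeGroup κ)) 1) = de (i, (1 : N.grp)) := by
  unfold pv
  rw [Finsupp.linearCombination_single, one_smul]
  rfl

/-- **The kernel dimension is upper semicontinuous.** -/
theorem usc (A : Matrix (Fin m) (Fin n) (FreeGroup κ →₀ ℂ)) :
    UpperSemicontinuous fun N : Marked κ => kerDim (AN A N) := by
  intro N t ht
  change kerDim (AN A N) < t at ht
  rw [kerDim_eq] at ht
  set D : Fin m → ℝ := fun i =>
    Metric.infDist (de (i, (1 : N.grp))) (SS (AN A N) : Set (L2 (Fin m × N.grp))) with hD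
  have hcont : Continuous fun ε : ℝ => ∑ i, (D i + ε) ^ 2 := by fun_prop
  have h0 : ∑ i, (D i + 0) ^ 2 < t := by simpa using ht
  have hev : ∀ᶠ ε in 𝓝 (0 : ℝ), ∑ i, (D i + ε) ^ 2 < t :=
    hcont.continuousAt.eventually (gt_mem_nhds h0)
  obtain ⟨ε, hε, hε0⟩ : ∃ ε : ℝ, ∑ i, (D i + ε) ^ 2 < t ∧ 0 < ε := by
    have h1 : ∀ᶠ ε in 𝓝[>] (0 : ℝ), ∑ i, (D i + ε) ^ 2 < t := hev.filter_mono nhdsWithin_le_nhds
    exact (h1.and self_mem_nhdsWithin).exists
  have hz : ∀ i : Fin m, ∃ z ∈ ZZ A,
      ‖pv (fN m N) (Finsupp.single (i, (1 : FreeGroup κ)) 1 - z)‖ < D i + ε := by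
    intro i
    have h1 : Metric.infDist (de (i, (1 : N.grp)))
        (SS (AN A N) : Set (L2 (Fin m × N.grp))) < D i + ε := by
      simp only [hD]
      linarith
    rw [Metric.infDist_lt_iff ⟨0, (SS (AN A N)).zero_mem⟩] at h1
    obtain ⟨y, hy, hy2⟩ := h1
    rw [SS_eq, SetLike.mem_coe, Submodule.mem_map] at hy
    obtain ⟨z, hz, rfl⟩ := hy
    refine ⟨z, hz, ?_⟩
    rw [map_sub, pv_single]
    rwa [dist_eq_norm] at hy2
  choose z hzZ hz2 using hz
  have h2 : ∀ᶠ M in 𝓝 N, ∀ i : Fin m,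
      ‖pv (fN m M) (Finsupp.single (i, (1 : FreeGroup κ)) 1 - z i)‖ =
        ‖pv (fN m N) (Finsupp.single (i, (1 : FreeGroup κ)) 1 - z i)‖ := by
    rw [Filter.eventually_all]
    intro i
    exact ev_norm N _
  filter_upwards [h2] with M hM
  change kerDim (AN A M) < t
  rw [kerDim_eq]
  refine lt_of_le_of_lt (Finset.sum_le_sum fun i _ => ?_) hε
  have h3 : Metric.infDist (de (i, (1 : M.grp))) (SS (AN A M) : Set (L2 (Fin m × M.grp))) ≤
      ‖pv (fN m M) (Finsupp.single (i, (1 : FreeGroup κ)) 1 - z i)‖ := by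
    have h4 : pv (fN m M) (z i) ∈ (SS (AN A M) : Set (L2 (Fin m × M.grp))) := by
      rw [SS_eq, SetLike.mem_coe]
      exact Submodule.mem_map_of_mem (hzZ i)
    refine (Metric.infDist_le_dist_of_mem h4).trans ?_
    rw [dist_eq_norm, map_sub, pv_single]
  apply pow_le_pow_left₀ Metric.infDist_nonneg
  exact h3.trans ((hM i).le.trans (hz2 i).le)

end Semi

end Pool.Agent.K3h41.MG
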